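import Pool.Agent.L7h48.SGP.Stm

set_option autoImplicit false

/-! # Project SGP, parts AB and WM (helper51): Abel summation, the mean of the weight -/

namespace Pool.Agent.L7h51.SGP

open Finset Pool.Agent.L7h48.SGP

theorem abel_id (w F : ℕ → ℝ) (M : ℕ) :
    ∑ m ∈ Icc 1 M, w m * F m = (∑ m ∈ Icc 1 M, w m) * F M -
      ∑ m ∈ range M, (∑ k ∈ Icc 1 m, w k) * (F (m + 1) - F m) := by
  induction M with
  | zero => simp
  | succ M ih =>
    rw [Finset.sum_Icc_succ_top (by omega), ih, Finset.sum_range_succ,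
      Finset.sum_Icc_succ_top (by omega)]
    ring

theorem s_AB : S_AB := by
  intro w F E M hw hF hm
  have hE : 0 ≤ E := le_trans (abs_nonneg _) (hw 0 (Nat.zero_le _))
  rw [abel_id]
  have h1 : |(∑ m ∈ Icc 1 M, w m) * F M| ≤ E * F M := by
    rw [abs_mul, abs_of_nonneg (hF M)]
    exact mul_le_mul_of_nonneg_right (hw M le_rfl) (hF M)
  have h2 : |∑ m ∈ range M, (∑ k ∈ Icc 1 m, w k) * (F (m + 1) - F m)| ≤ E * F M := by
    calc |∑ m ∈ range M, (∑ k ∈ Icc 1 m, w k) * (F (m + 1) - F m)|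
        ≤ ∑ m ∈ range M, |(∑ k ∈ Icc 1 m, w k) * (F (m + 1) - F m)| :=
          Finset.abs_sum_le_sum_abs _ _
      _ ≤ ∑ m ∈ range M, E * (F (m + 1) - F m) := by
          refine Finset.sum_le_sum fun m hmM => ?_
          have h3 : 0 ≤ F (m + 1) - F m := sub_nonneg.2 (hm (Nat.le_succ m))
          rw [abs_mul, abs_of_nonneg h3]
          exact mul_le_mul_of_nonneg_right (hw m (Finset.mem_range.1 hmM).le) h3
      _ = E * (F M - F 0) := by rw [← Finset.mul_sum, Finset.sum_range_sub]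
      _ ≤ E * F M := mul_le_mul_of_nonneg_left (by linarith [hF 0]) hE
  rw [abs_le] at h1 h2 ⊢
  constructor <;> linarith [h1.1, h1.2, h2.1, h2.2]

/-! ### periodic sequences -/

theorem per_any {f : ℕ → ℝ} {T : ℕ} (hp : ∀ m, f (m + T) = f m) (s : ℕ) :
    ∑ m ∈ range T, f (s + m) = ∑ m ∈ range T, f m := by
  induction s with
  | zero => simp
  | succ s ih =>
    rw [← ih]
    have h1 := Finset.sum_range_succ (fun m => f (s + m)) T
    have h2 := Finset.sum_range_succ' (fun m => f (s + m)) T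
    have h3 : f (s + T) = f s := hp s
    have h4 : ∑ m ∈ range T, f (s + (m + 1)) = ∑ m ∈ range T, f (s + 1 + m) :=
      Finset.sum_congr rfl fun m _ => by congr 1; ring
    simp only [h4, add_zero] at h2
    linarith

theorem per_sum {f : ℕ → ℝ} {T : ℕ} (hT : 0 < T) (hp : ∀ m, f (m + T) = f m)
    (h0 : ∑ m ∈ range T, f m = 0) {B : ℝ} (hB : ∀ m, |f m| ≤ B) (N : ℕ) :
    |∑ m ∈ Icc 1 N, f m| ≤ B * T := by
  have hB0 : 0 ≤ B := le_trans (abs_nonneg _) (hB 0)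
  have e : ∀ N, ∑ m ∈ Icc 1 N, f m = ∑ m ∈ range N, f (m + 1) := by
    intro N
    rw [Finset.range_eq_Ico, Finset.sum_Ico_add' (fun m => f m) 0 N 1]
    rfl
  rw [e]
  induction N using Nat.strong_induction_on with
  | _ N ih =>
    by_cases hN : N < T
    · calc |∑ m ∈ range N, f (m + 1)| ≤ ∑ m ∈ range N, |f (m + 1)| :=
            Finset.abs_sum_le_sum_abs _ _
        _ ≤ ∑ m ∈ range N, B := Finset.sum_le_sum fun m _ => hB _
        _ = N * B := by simp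
        _ ≤ B * T := by
          rw [mul_comm]
          exact mul_le_mul_of_nonneg_left (by exact_mod_cast hN.le) hB0
    · push Not at hN
      obtain ⟨N', rfl⟩ := Nat.exists_eq_add_of_le hN
      rw [add_comm T N', Finset.sum_range_add]
      have h1 : ∑ x ∈ range T, f (N' + x + 1) = 0 := by
        have h2 := per_any hp (N' + 1)
        rw [h0] at h2
        rw [← h2]
        exact Finset.sum_congr rfl fun m _ => by congr 1; ring
      rw [h1, add_zero]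
      exact ih N' (by omega)

/-! ### the factors at `2` and `3` -/

/-- the factor at `6` -/
noncomputable def ka (j y m : ℕ) : ℝ := k2 j m y * k3 j m y

theorem k2_mod (j m m' y : ℕ) (h : m ≡ m' [MOD 24]) : k2 j m y = k2 j m' y := by
  have h8 : 3 ^ j * m ^ 3 ≡ 3 ^ j * m' ^ 3 [MOD 8] :=
    Nat.ModEq.mul_left _ ((h.of_dvd (by norm_num)).pow 3)
  have h4 : 3 ^ j * m ^ 3 ≡ 3 ^ j * m' ^ 3 [MOD 4] :=
    Nat.ModEq.mul_left _ ((h.of_dvd (by norm_num)).pow 3)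
  unfold Nat.ModEq at h8 h4
  unfold k2
  rw [h8, h4]

theorem k3_mod (j m m' y : ℕ) (h : m ≡ m' [MOD 24]) : k3 j m y = k3 j m' y := by
  have h3 : m ≡ m' [MOD 3] := h.of_dvd (by norm_num)
  unfold Nat.ModEq at h3
  unfold k3
  rw [h3]

theorem ka_mod (j y m m' : ℕ) (h : m ≡ m' [MOD 24]) : ka j y m = ka j y m' := by
  unfold ka
  rw [k2_mod j m m' y h, k3_mod j m m' y h]

theorem k2_bd (j m y : ℕ) : 0 ≤ k2 j m y ∧ k2 j m y ≤ 2 := by
  unfold k2
  split_ifs <;> norm_num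

theorem k3_bd (j m y : ℕ) : 0 ≤ k3 j m y ∧ k3 j m y ≤ 2 / 3 := by
  unfold k3
  split_ifs <;> norm_num

theorem ka_bd (j y m : ℕ) : 0 ≤ ka j y m ∧ ka j y m ≤ 4 / 3 := by
  obtain ⟨h1, h2⟩ := k2_bd j m y
  obtain ⟨h3, h4⟩ := k3_bd j m y
  refine ⟨mul_nonneg h1 h3, ?_⟩
  calc k2 j m y * k3 j m y ≤ 2 * (2 / 3) := mul_le_mul h2 h4 h3 (by norm_num)
    _ = 4 / 3 := by norm_num

theorem rm_bd (j y : ℕ) : 0 ≤ Rm j y ∧ Rm j y ≤ 1 := by
  unfold Rm
  split_ifs <;> norm_num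

theorem sum24 (j y : ℕ) (hj : j ≤ 1) : ∑ m ∈ range 24, ka j y m = 24 * Rm j y := by
  have hj' : j = 0 ∨ j = 1 := by omega
  have h3 : (y % 3 ≠ 0 ∧ y % 9 ≠ 0) ∨ (y % 3 = 0 ∧ y % 9 = 0) ∨ (y % 3 = 0 ∧ y % 9 ≠ 0) := by
    omega
  have h2 : y % 2 = 1 ∨ (y % 2 ≠ 1 ∧ y % 4 = 2) ∨ (y % 2 ≠ 1 ∧ y % 4 ≠ 2 ∧ y % 8 = 4) ∨
      (y % 2 ≠ 1 ∧ y % 4 ≠ 2 ∧ y % 8 ≠ 4) := by
    omega
  rcases hj' with rfl | rfl <;>
  rcases h3 with ⟨a, b⟩ | ⟨a, b⟩ | ⟨a, b⟩ <;>
  rcases h2 with c | ⟨c, d⟩ | ⟨c, d, e⟩ | ⟨c, d, e⟩ <;>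
  · simp only [Finset.sum_range_succ, Finset.sum_range_zero, ka, k2, k3, Rm, *, if_true, if_false,
      ne_eq, not_true, not_false_iff]
    norm_num

/-! ### the characters -/

/-- the product of the symbols of the elements of `S` -/
noncomputable def ch (j : ℕ) (S : Finset ℕ) (m : ℕ) : ℝ :=
  ∏ q ∈ S, (jacobiSym ((3 ^ j * m : ℕ) : ℤ) q : ℝ)

theorem j_bd (a : ℤ) (b : ℕ) : |(jacobiSym a b : ℝ)| ≤ 1 := by
  rcases jacobiSym.trichotomy a b with h | h | h <;> rw [h] <;> norm_num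

theorem ch_bd (j : ℕ) (S : Finset ℕ) (m : ℕ) : |ch j S m| ≤ 1 := by
  unfold ch
  rw [Finset.abs_prod]
  exact Finset.prod_le_one (fun _ _ => abs_nonneg _) fun q _ => j_bd _ _

theorem j_mod {j m m' q : ℕ} (h : m ≡ m' [MOD q]) :
    jacobiSym ((3 ^ j * m : ℕ) : ℤ) q = jacobiSym ((3 ^ j * m' : ℕ) : ℤ) q := by
  refine jacobiSym.mod_left' ?_
  have h1 : 3 ^ j * m ≡ 3 ^ j * m' [MOD q] := Nat.ModEq.mul_left _ h
  unfold Nat.ModEq at h1
  exact_mod_cast h1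

theorem ch_mod (j : ℕ) (S : Finset ℕ) {m m' : ℕ} (h : m ≡ m' [MOD ∏ q ∈ S, q]) :
    ch j S m = ch j S m' := by
  refine Finset.prod_congr rfl fun q hq => ?_
  rw [j_mod (h.of_dvd (Finset.dvd_prod_of_mem _ hq))]

theorem twist (S : Finset ℕ) (hS : ∀ q ∈ S, q.Prime ∧ 5 ≤ q) {q₀ : ℕ} (hq₀ : q₀ ∈ S) :
    ∃ b : ℕ, b ≡ 1 [MOD 24] ∧ (∀ q ∈ S.erase q₀, b ≡ 1 [MOD q]) ∧ jacobiSym (b : ℤ) q₀ = -1 ∧
      Nat.Coprime b (24 * ∏ q ∈ S, q) := by
  have hp : q₀.Prime := (hS q₀ hq₀).1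
  have : Fact q₀.Prime := ⟨hp⟩
  obtain ⟨a, ha⟩ := FiniteField.exists_nonsquare (F := ZMod q₀) (by
    rw [ZMod.ringChar_zmod_n]
    have := (hS q₀ hq₀).2
    omega)
  have hn : jacobiSym ((a.val : ℕ) : ℤ) q₀ = -1 := by
    rw [← jacobiSym.legendreSym.to_jacobiSym, legendreSym.eq_neg_one_iff]
    simpa using ha
  have h24 : Nat.Coprime 24 q₀ := by
    rw [Nat.coprime_comm, Nat.Prime.coprime_iff_not_dvd hp]
    intro h
    have h1 : q₀ ∣ 2 ^ 3 * 3 := by simpa using h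
    rcases (Nat.Prime.dvd_mul hp).1 h1 with h2 | h2
    · have := Nat.le_of_dvd (by norm_num) (hp.dvd_of_dvd_pow h2)
      have := (hS q₀ hq₀).2
      omega
    · have := Nat.le_of_dvd (by norm_num) h2
      have := (hS q₀ hq₀).2
      omega
  have hP : Nat.Coprime (24 * ∏ q ∈ S.erase q₀, q) q₀ := by
    refine Nat.Coprime.mul_left h24 (Nat.Coprime.prod_left fun q hq => ?_)
    exact (Nat.coprime_primes (hS q (Finset.mem_of_mem_erase hq)).1 hp).2 (Finset.ne_of_mem_erase hq)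
  obtain ⟨b, hb1, hb2⟩ := Nat.chineseRemainder hP 1 a.val
  have hJ : jacobiSym (b : ℤ) q₀ = -1 := by
    rw [← hn]
    refine jacobiSym.mod_left' ?_
    unfold Nat.ModEq at hb2
    exact_mod_cast hb2
  refine ⟨b, hb1.of_dvd (Dvd.intro _ rfl), fun q hq => hb1.of_dvd ?_, hJ, ?_⟩
  · exact (Finset.dvd_prod_of_mem (fun q => q) hq).trans (Dvd.intro_left _ rfl)
  · rw [← Finset.prod_erase_mul S (fun q => q) hq₀, ← mul_assoc]
    refine Nat.Coprime.mul_right ?_ ?_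
    · unfold Nat.Coprime
      rw [hb1.gcd_eq]
      simp
    · rw [Nat.coprime_comm, Nat.Prime.coprime_iff_not_dvd hp]
      intro h
      have h1 : jacobiSym (b : ℤ) q₀ = 0 := by
        rw [← jacobiSym.legendreSym.to_jacobiSym, legendreSym.eq_zero_iff]
        rw [Int.cast_natCast, ZMod.natCast_eq_zero_iff]
        exact h
      rw [h1] at hJ
      norm_num at hJ

theorem sum_mul_left {f : ℕ → ℝ} {T b : ℕ} (hT : 0 < T) (hb : Nat.Coprime b T)
    (hf : ∀ m m', m ≡ m' [MOD T] → f m = f m') :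
    ∑ m ∈ range T, f (b * m) = ∑ m ∈ range T, f m := by
  have hmaps : ∀ m ∈ range T, b * m % T ∈ range T := fun m _ =>
    Finset.mem_range.2 (Nat.mod_lt _ hT)
  have hinj : Set.InjOn (fun m => b * m % T) (range T : Set ℕ) := by
    intro m hm m' hm' h
    have h1 : b * m ≡ b * m' [MOD T] := h
    have h2 := Nat.ModEq.cancel_left_of_coprime (by rw [Nat.gcd_comm]; exact hb) h1
    exact Nat.ModEq.eq_of_lt_of_lt h2 (Finset.mem_range.1 hm) (Finset.mem_range.1 hm')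
  refine Finset.sum_nbij (fun m => b * m % T) hmaps hinj
    (Finset.surjOn_of_injOn_of_card_le _ hmaps hinj le_rfl) fun m _ => ?_
  exact hf _ _ (Nat.mod_modEq _ _).symm

theorem zero_sum (j y : ℕ) (S : Finset ℕ) (hS : ∀ q ∈ S, q.Prime ∧ 5 ≤ q) (hne : S.Nonempty) :
    ∑ m ∈ range (24 * ∏ q ∈ S, q), ka j y m * ch j S m = 0 := by
  obtain ⟨q₀, hq₀⟩ := hne
  obtain ⟨b, h1, h2, h3, h4⟩ := twist S hS hq₀
  have hT : 0 < 24 * ∏ q ∈ S, q :=
    Nat.mul_pos (by norm_num) (Finset.prod_pos fun q hq => (hS q hq).1.pos)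
  have h5 := sum_mul_left (f := fun m => ka j y m * ch j S m) hT h4 (fun m m' h => by
    rw [ka_mod j y m m' (h.of_dvd (Dvd.intro _ rfl)), ch_mod j S (h.of_dvd (Dvd.intro_left _ rfl))])
  have h6 : ∀ m, ka j y (b * m) * ch j S (b * m) = -(ka j y m * ch j S m) := by
    intro m
    have e1 : ka j y (b * m) = ka j y m := by
      refine ka_mod _ _ _ _ ?_
      simpa using Nat.ModEq.mul_right m h1
    have e2 : ch j S (b * m) = -ch j S m := by
      unfold ch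
      rw [← Finset.mul_prod_erase S _ hq₀, ← Finset.mul_prod_erase S _ hq₀]
      have e3 : ∏ q ∈ S.erase q₀, (jacobiSym ((3 ^ j * (b * m) : ℕ) : ℤ) q : ℝ) =
          ∏ q ∈ S.erase q₀, (jacobiSym ((3 ^ j * m : ℕ) : ℤ) q : ℝ) := by
        refine Finset.prod_congr rfl fun q hq => ?_
        rw [j_mod (m := b * m) (m' := m)]
        simpa using Nat.ModEq.mul_right m (h2 q hq)
      have e4 : jacobiSym ((3 ^ j * (b * m) : ℕ) : ℤ) q₀ =
          -jacobiSym ((3 ^ j * m : ℕ) : ℤ) q₀ := by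
        have : ((3 ^ j * (b * m) : ℕ) : ℤ) = (b : ℤ) * ((3 ^ j * m : ℕ) : ℤ) := by
          push_cast
          ring
        rw [this, jacobiSym.mul_left, h3]
        ring
      rw [e3, e4]
      push_cast
      ring
    rw [e1, e2]
    ring
  simp only [h6] at h5
  rw [Finset.sum_neg_distrib] at h5
  linarith

theorem s_WM : S_WM := by
  refine ⟨80, by norm_num, fun j y N hj hy => ?_⟩
  set Q := y.primeFactors.filter (5 ≤ ·) with hQ
  have hQp : ∀ q ∈ Q, q.Prime ∧ 5 ≤ q := fun q hq =>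
    ⟨Nat.prime_of_mem_primeFactors (Finset.mem_filter.1 hq).1, (Finset.mem_filter.1 hq).2⟩
  have hprod : ∏ q ∈ Q, q ≤ y := by
    have h1 : ∏ q ∈ Q, q ∣ ∏ q ∈ y.primeFactors, q :=
      Finset.prod_dvd_prod_of_subset _ _ _ (Finset.filter_subset _ _)
    exact Nat.le_of_dvd hy (h1.trans (Nat.prod_primeFactors_dvd y))
  -- expansion
  have hexp : ∀ m, k2 j m y * k3 j m y * Wt j m y - Rm j y =
      (ka j y m - Rm j y) + ∑ S ∈ Q.powerset.erase ∅, ka j y m * ch j S m := by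
    intro m
    have h1 : Wt j m y = ∑ S ∈ Q.powerset, ch j S m := by
      unfold Wt ch
      rw [Finset.prod_one_add]
    have h2 : ∑ S ∈ Q.powerset, ch j S m = ch j ∅ m + ∑ S ∈ Q.powerset.erase ∅, ch j S m :=
      (Finset.add_sum_erase _ _ (Finset.empty_mem_powerset Q)).symm
    have h3 : ch j ∅ m = 1 := by simp [ch]
    rw [h1, h2, h3, ← Finset.mul_sum]
    unfold ka
    ring
  have hsum : ∑ m ∈ Icc 1 N, (k2 j m y * k3 j m y * Wt j m y - Rm j y) =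
      ∑ m ∈ Icc 1 N, (ka j y m - Rm j y) +
        ∑ S ∈ Q.powerset.erase ∅, ∑ m ∈ Icc 1 N, ka j y m * ch j S m := by
    rw [Finset.sum_congr rfl fun m _ => hexp m, Finset.sum_add_distrib, Finset.sum_comm]
  have hA : |∑ m ∈ Icc 1 N, (ka j y m - Rm j y)| ≤ 2 * (24 : ℕ) := by
    refine per_sum (by norm_num) (fun m => ?_) ?_ (fun m => ?_) N
    · rw [ka_mod j y (m + 24) m (by simp [Nat.ModEq])]
    · rw [Finset.sum_sub_distrib, sum24 j y hj]
      simp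
    · obtain ⟨h1, h2⟩ := ka_bd j y m
      obtain ⟨h3, h4⟩ := rm_bd j y
      rw [abs_le]
      constructor <;> linarith
  have hB : ∀ S ∈ Q.powerset.erase ∅, |∑ m ∈ Icc 1 N, ka j y m * ch j S m| ≤ 32 * (y : ℝ) := by
    intro S hS
    have hSQ : S ⊆ Q := Finset.mem_powerset.1 (Finset.mem_of_mem_erase hS)
    have hne : S.Nonempty := Finset.nonempty_iff_ne_empty.2 (Finset.ne_of_mem_erase hS)
    have hSp : ∀ q ∈ S, q.Prime ∧ 5 ≤ q := fun q hq => hQp q (hSQ hq)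
    have hT : 0 < 24 * ∏ q ∈ S, q :=
      Nat.mul_pos (by norm_num) (Finset.prod_pos fun q hq => (hSp q hq).1.pos)
    have h1 := per_sum (f := fun m => ka j y m * ch j S m) (B := 4 / 3) hT (fun m => by
      rw [ka_mod j y (m + 24 * ∏ q ∈ S, q) m (by simp [Nat.ModEq, Nat.add_mul_mod_self_left]),
        ch_mod j S (m := m + 24 * ∏ q ∈ S, q) (m' := m)
          (by simp [Nat.ModEq, Nat.add_mul_mod_self_right])]) (zero_sum j y S hSp hne) (fun m => by
      obtain ⟨h1, h2⟩ := ka_bd j y m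
      rw [abs_mul, abs_of_nonneg h1]
      calc ka j y m * |ch j S m| ≤ 4 / 3 * 1 :=
            mul_le_mul h2 (ch_bd j S m) (abs_nonneg _) (by norm_num)
        _ = 4 / 3 := by norm_num) N
    have h2 : ∏ q ∈ S, q ≤ y := by
      have h3 : ∏ q ∈ S, q ∣ ∏ q ∈ Q, q := Finset.prod_dvd_prod_of_subset _ _ _ hSQ
      exact (Nat.le_of_dvd (Finset.prod_pos fun q hq => (hQp q hq).1.pos) h3).trans hprod
    have h3 : ((∏ q ∈ S, q : ℕ) : ℝ) ≤ y := by exact_mod_cast h2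
    refine h1.trans ?_
    push_cast at h3 ⊢
    linarith
  have hcard : ((Q.powerset.erase ∅).card : ℝ) ≤ √(y : ℝ) := by
    have h1 : (Q.powerset.erase ∅).card ≤ 2 ^ Q.card := by
      rw [← Finset.card_powerset]
      exact Finset.card_le_card (Finset.erase_subset _ _)
    have h2 : 4 ^ Q.card ≤ y := by
      refine le_trans ?_ hprod
      rw [← Finset.prod_const]
      exact Finset.prod_le_prod' fun q hq => by
        have := (hQp q hq).2
        omega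
    have h3 : ((2 : ℝ) ^ Q.card) ≤ √(y : ℝ) := by
      refine Real.le_sqrt_of_sq_le ?_
      rw [← pow_mul, mul_comm, pow_mul]
      norm_num
      exact_mod_cast h2
    calc ((Q.powerset.erase ∅).card : ℝ) ≤ ((2 ^ Q.card : ℕ) : ℝ) := by exact_mod_cast h1
      _ = (2 : ℝ) ^ Q.card := by push_cast; ring
      _ ≤ √(y : ℝ) := h3
  have hy1 : (1 : ℝ) ≤ y := by exact_mod_cast hy
  have hs1 : (1 : ℝ) ≤ √(y : ℝ) := by
    rw [Real.one_le_sqrt]
    exact hy1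
  rw [hsum]
  have h5 : |∑ S ∈ Q.powerset.erase ∅, ∑ m ∈ Icc 1 N, ka j y m * ch j S m| ≤
      √(y : ℝ) * (32 * y) := by
    calc |∑ S ∈ Q.powerset.erase ∅, ∑ m ∈ Icc 1 N, ka j y m * ch j S m|
        ≤ ∑ S ∈ Q.powerset.erase ∅, |∑ m ∈ Icc 1 N, ka j y m * ch j S m| :=
          Finset.abs_sum_le_sum_abs _ _
      _ ≤ ∑ S ∈ Q.powerset.erase ∅, 32 * (y : ℝ) := Finset.sum_le_sum hB
      _ = ((Q.powerset.erase ∅).card : ℝ) * (32 * y) := by
          rw [Finset.sum_const, nsmul_eq_mul]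
      _ ≤ √(y : ℝ) * (32 * y) := mul_le_mul_of_nonneg_right hcard (by positivity)
  have h6 : (1 : ℝ) ≤ y * √(y : ℝ) := by nlinarith
  calc |∑ m ∈ Icc 1 N, (ka j y m - Rm j y) +
        ∑ S ∈ Q.powerset.erase ∅, ∑ m ∈ Icc 1 N, ka j y m * ch j S m|
      ≤ |∑ m ∈ Icc 1 N, (ka j y m - Rm j y)| +
        |∑ S ∈ Q.powerset.erase ∅, ∑ m ∈ Icc 1 N, ka j y m * ch j S m| := abs_add_le _ _
    _ ≤ 48 * (y * √(y : ℝ)) + 32 * (y * √(y : ℝ)) := by
        push_cast at hA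
        nlinarith [hA, h5]
    _ = 80 * y * √(y : ℝ) := by ring

end Pool.Agent.L7h51.SGP
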