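import Pool.Agent.L7h48.SGP.Stm
import Pool.Agent.L7h79.SG.D1

/-!
# Project SGP, part U1 (helper51): the `p`-units of a totally complex number field

A variant of `Pool.Agent.L7h79.SG.D1` for any finite set of primes above `p`.
-/

set_option autoImplicit false

namespace Pool.Agent.L7h51.SGP

open NumberField IsDedekindDomain HeightOneSpectrum Pool.Agent.L7h79.SG

variable {N : Type} [Field N] [NumberField N] {τ : Type} [Fintype τ]

/-- the elements which are units outside the places `v i` -/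
noncomputable def Wv (v : τ → HeightOneSpectrum (𝓞 N)) : Subgroup Nˣ where
  carrier := {x | ∀ w, (∀ i, w ≠ v i) → vz w x = 1}
  one_mem' := fun w _ => map_one _
  mul_mem' := by
    intro a b ha hb w h
    rw [map_mul, ha w h, hb w h, one_mul]
  inv_mem' := by
    intro a ha w h
    rw [map_inv, ha w h, inv_one]

theorem pUnit_of_mem' {p : ℕ} (hp : p ≠ 0) {v : τ → HeightOneSpectrum (𝓞 N)}
    (h : ∀ i, (p : 𝓞 N) ∈ (v i).asIdeal) {x : Nˣ} (hx : x ∈ Wv v) :
    ∃ k : ℕ, IsIntegral ℤ ((p : N) ^ k * (x : N)) := by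
  classical
  have key : ∀ v : HeightOneSpectrum (𝓞 N), (p : 𝓞 N) ∈ v.asIdeal →
      ∃ k : ℕ, ∀ k', k ≤ k' → v.valuation N ((p : N) ^ k' * (x : N)) ≤ 1 := by
    intro v hv
    have hlt : v.valuation N (p : N) < 1 := by
      have := (HeightOneSpectrum.valuation_lt_one_iff_mem (K := N) v (p : 𝓞 N)).2 hv
      change v.valuation N (algebraMap (𝓞 N) N p) < 1 at this
      rwa [map_natCast] at this
    have hle : v.valuation N (p : N) ≤ WithZero.exp (-1 : ℤ) := by
      have h0 : v.valuation N (p : N) ≠ 0 := by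
        rw [Valuation.ne_zero_iff]; exact Nat.cast_ne_zero.2 hp
      rw [← WithZero.exp_log h0] at hlt ⊢
      rw [← WithZero.exp_zero, WithZero.exp_lt_exp] at hlt
      rw [WithZero.exp_le_exp]
      omega
    have hx0 : v.valuation N (x : N) ≠ 0 := by
      rw [Valuation.ne_zero_iff]; exact x.ne_zero
    refine ⟨(WithZero.log (v.valuation N (x : N))).toNat, fun k' hk' => ?_⟩
    rw [map_mul, map_pow]
    calc v.valuation N (p : N) ^ k' * v.valuation N (x : N)
        ≤ WithZero.exp (-1 : ℤ) ^ k' * v.valuation N (x : N) := by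
          gcongr
      _ = WithZero.exp (-(k' : ℤ)) * WithZero.exp (WithZero.log (v.valuation N (x : N))) := by
          rw [WithZero.exp_log hx0, ← WithZero.exp_nsmul]
          congr 2
          simp
      _ ≤ 1 := by
          rw [← WithZero.exp_add, ← WithZero.exp_zero, WithZero.exp_le_exp]
          have := Int.self_le_toNat (WithZero.log (v.valuation N (x : N)))
          omega
  choose k hk using fun i => key (v i) (h i)
  refine ⟨Finset.univ.sup k, isInt_of_le fun w => ?_⟩
  by_cases e : ∃ i, w = v i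
  · obtain ⟨i, rfl⟩ := e
    exact hk i _ (Finset.le_sup (Finset.mem_univ i))
  · push Not at e
    rw [map_mul, ← vz_eq w x, hx w e, map_pow]
    have h2le : w.valuation N (p : N) ≤ 1 := by
      have := HeightOneSpectrum.valuation_le_one (K := N) w (p : 𝓞 N)
      change w.valuation N (algebraMap (𝓞 N) N p) ≤ 1 at this
      rwa [map_natCast] at this
    calc w.valuation N (p : N) ^ _ * _ ≤ 1 * 1 := by
          refine mul_le_mul' (pow_le_one₀ (by simp) h2le) le_rfl
      _ = 1 := one_mul 1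

/-- the valuations at the places `v i` -/
noncomputable def vl (v : τ → HeightOneSpectrum (𝓞 N)) : Additive (Wv v) →+ (τ → ℤ) where
  toFun x := fun i => Multiplicative.toAdd (vz (v i) ((x.toMul : Wv v) : Nˣ))
  map_zero' := by
    funext i
    simp
  map_add' x y := by
    funext i
    simp

theorem exists_basis' {v : τ → HeightOneSpectrum (𝓞 N)} (hv : Function.Injective v) :
    ∃ w : Fin (Fintype.card τ) → Nˣ, (∀ i, w i ∈ Wv v) ∧
      ∀ (p : ℕ) (e : Fin (Fintype.card τ) → ℕ), ∀ y ∈ Wv v, ∀ u : Nˣ,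
        (∀ k, vz (v k) u = 1) → u * ∏ i, w i ^ e i = y ^ p → ∀ i, p ∣ e i := by
  classical
  set L : Submodule ℤ (τ → ℤ) := LinearMap.range (vl v).toIntLinearMap with hL
  choose g hg1 hg2 using fun i => exists_gen (v i)
  have hgW : ∀ i, g i ∈ Wv v := fun i w hw => hg2 i w (hw i)
  have hli : LinearIndependent ℤ fun i : τ =>
      (⟨vl v (Additive.ofMul ⟨g i, hgW i⟩), ⟨_, rfl⟩⟩ : L) := by
    rw [Fintype.linearIndependent_iff]
    intro a ha i
    have h1 := congrArg (fun t : L => (t : τ → ℤ) i) ha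
    simp only [Submodule.coe_sum, Submodule.coe_smul, Finset.sum_apply, Pi.smul_apply,
      Submodule.coe_zero, Pi.zero_apply, smul_eq_mul] at h1
    rw [Finset.sum_eq_single i] at h1
    · rcases mul_eq_zero.1 h1 with h2 | h2
      · exact h2
      · exact absurd (Multiplicative.toAdd.injective h2) (hg1 i)
    · intro k _ hk
      have h3 : vz (v i) (g k) = 1 := hg2 k (v i) fun e => hk (hv e).symm
      have h4 : vl v (Additive.ofMul ⟨g k, hgW k⟩) i = 0 := by
        show Multiplicative.toAdd (vz (v i) (g k)) = 0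
        rw [h3]
        rfl
      rw [h4, mul_zero]
    · intro h
      exact absurd (Finset.mem_univ i) h
  have hrk : Module.finrank ℤ L = Fintype.card τ := by
    refine le_antisymm ?_ hli.fintype_card_le_finrank
    calc Module.finrank ℤ L ≤ Module.finrank ℤ (τ → ℤ) := Submodule.finrank_le L
      _ = Fintype.card τ := Module.finrank_fintype_fun_eq_card ℤ
  let b : Module.Basis (Fin (Fintype.card τ)) ℤ L := Module.finBasisOfFinrankEq ℤ L hrk
  have hb : ∀ i, ∃ w : Additive (Wv v), vl v w = (b i : τ → ℤ) := fun i => (b i).2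
  choose w hw using hb
  refine ⟨fun i => ((w i).toMul : Wv v), fun i => ((w i).toMul : Wv v).2, ?_⟩
  intro p e y hy u hu h i
  have h1 : ∑ i, (e i : ℤ) • b i =
      (p : ℤ) • (⟨vl v (Additive.ofMul ⟨y, hy⟩), ⟨_, rfl⟩⟩ : L) := by
    refine Subtype.ext (funext fun k => ?_)
    have h2 := congrArg (fun t => Multiplicative.toAdd (vz (v k) t)) h
    simp only [map_mul, map_prod, map_pow, hu, one_mul, toAdd_prod, toAdd_pow] at h2
    simp only [Submodule.coe_sum, Submodule.coe_smul, Finset.sum_apply, Pi.smul_apply,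
      smul_eq_mul]
    rw [← nsmul_eq_mul]
    have h3 : vl v (Additive.ofMul ⟨y, hy⟩) k = Multiplicative.toAdd (vz (v k) y) := rfl
    rw [h3, ← h2]
    refine Finset.sum_congr rfl fun i _ => ?_
    rw [← hw i, nsmul_eq_mul]
    rfl
  have h2 := congrArg (fun t => b.repr t i) h1
  simp only [Module.Basis.repr_sum_self, map_smul, Finsupp.smul_apply, smul_eq_mul] at h2
  exact Int.natCast_dvd_natCast.1 ⟨_, h2⟩

/-- independence of the fundamental units modulo `p`-th powers -/
theorem unit_part' {p : ℕ} (e : Fin (Units.rank N) → ℕ) (y : (𝓞 N)ˣ)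
    (h : ∏ i, Units.fundSystem N i ^ e i = y ^ p) : ∀ i, p ∣ e i := by
  obtain ⟨⟨t, f⟩, hy, -⟩ := Units.exist_unique_eq_mul_prod N y
  simp only at hy
  obtain ⟨_, -, huniq⟩ := Units.exist_unique_eq_mul_prod N (y ^ p)
  have h1 := huniq (1, fun i => (e i : ℤ)) (by
    simp only [zpow_natCast, OneMemClass.coe_one, one_mul]; exact h.symm)
  have h2 := huniq (⟨(t : (𝓞 N)ˣ) ^ p, Subgroup.pow_mem _ t.2 p⟩, fun i => p * f i) (by
    simp only
    rw [hy, mul_pow, ← Finset.prod_pow]
    congr 1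
    refine Finset.prod_congr rfl fun i _ => ?_
    rw [← zpow_natCast, ← zpow_mul, mul_comm])
  have h3 := h1.trans h2.symm
  rw [Prod.mk.injEq] at h3
  obtain ⟨h4, h5⟩ := h3
  intro i
  have := congrFun h5 i
  exact Int.natCast_dvd_natCast.1 ⟨f i, this⟩

theorem s_U1 : Pool.Agent.L7h48.SGP.S_U1 := by
  classical
  intro p hp N _ _ m hm hr T hT
  have hp0 : p ≠ 0 := hp.out.ne_zero
  have hne0 : ∀ P : Ideal (𝓞 N), (p : 𝓞 N) ∈ P → P ≠ ⊥ := by
    rintro P h rfl
    rw [Ideal.mem_bot] at h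
    exact Nat.cast_ne_zero.2 hp0 h
  let v : T → HeightOneSpectrum (𝓞 N) := fun P => ⟨P.1, (hT P.1 P.2).1, hne0 P.1 (hT P.1 P.2).2⟩
  have hv : Function.Injective v := fun P P' h =>
    Subtype.ext (congrArg HeightOneSpectrum.asIdeal h)
  obtain ⟨w, hw1, hw2⟩ := exists_basis' hv
  -- the rank
  have hrank : Units.rank N = m - 1 := by
    have h1 := NumberField.InfinitePlace.card_add_two_mul_card_eq_rank N
    have h2 := NumberField.InfinitePlace.card_eq_nrRealPlaces_add_nrComplexPlaces N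
    have h3 : 0 < Module.finrank ℚ N := Module.finrank_pos
    rw [Units.rank, h2, hr]
    omega
  -- the elements
  let j : (𝓞 N)ˣ → Nˣ := Units.map (algebraMap (𝓞 N) N : 𝓞 N →* N)
  let U : Fin (Units.rank N) ⊕ Fin (Fintype.card T) → Nˣ :=
    Sum.elim (fun i => j (Units.fundSystem N i)) w
  have hj : ∀ u : (𝓞 N)ˣ, j u ∈ Wv v := fun u w' _ => vz_unit w' u _ rfl
  have hU : ∀ i, U i ∈ Wv v := by
    rintro (i | i)
    · exact hj _
    · exact hw1 i
  have hcard : Fintype.card (Fin (m - 1 + T.card)) =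
      Fintype.card (Fin (Units.rank N) ⊕ Fin (Fintype.card T)) := by
    simp [hrank]
  let E : Fin (m - 1 + T.card) ≃ Fin (Units.rank N) ⊕ Fin (Fintype.card T) :=
    Fintype.equivOfCardEq hcard
  have hpv : ∀ i, (p : 𝓞 N) ∈ (v i).asIdeal := fun i => (hT i.1 i.2).2
  refine ⟨fun i => (U (E i) : N), fun i => (U (E i)).ne_zero, fun i => ?_, ?_⟩
  · obtain ⟨k₁, hk₁⟩ := pUnit_of_mem' hp0 hpv (hU (E i))
    obtain ⟨k₂, hk₂⟩ := pUnit_of_mem' hp0 hpv ((Wv v).inv_mem (hU (E i)))
    have h2 : IsIntegral ℤ (p : N) := by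
      have := isIntegral_algebraMap (R := ℤ) (A := N) (x := p)
      simpa using this
    refine ⟨k₁ + k₂, ?_, ?_⟩
    · rw [pow_add, mul_comm ((p : N) ^ k₁) ((p : N) ^ k₂), mul_assoc]
      exact (h2.pow k₂).mul hk₁
    · rw [pow_add, mul_assoc]
      rw [Units.val_inv_eq_inv_val] at hk₂
      exact (h2.pow k₁).mul hk₂
  · intro S hS
    let ε : Fin (Units.rank N) ⊕ Fin (Fintype.card T) → ℕ := fun i => S (E.symm i)
    obtain ⟨y, hy⟩ := hS
    have hprod : ∏ i, (U (E i) : N) ^ S i = ((∏ i, U i ^ ε i : Nˣ) : N) := by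
      rw [← Equiv.prod_comp E]
      simp only [ε, Equiv.symm_apply_apply]
      push_cast
      rfl
    have hy0 : y ≠ 0 := by
      rintro rfl
      rw [zero_pow hp0, hprod] at hy
      exact Units.ne_zero _ hy.symm
    have hy' : (∏ i, U i ^ ε i : Nˣ) = (Units.mk0 y hy0) ^ p := by
      ext
      rw [← hprod, ← hy, Units.val_pow_eq_pow_val, Units.val_mk0]
    have hroot : ∀ (w' : HeightOneSpectrum (𝓞 N)) (t : Nˣ), vz w' (t ^ p) = 1 → vz w' t = 1 := by
      intro w' t h4
      rw [map_pow] at h4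
      have h5 := congrArg Multiplicative.toAdd h4
      rw [toAdd_pow, toAdd_one, nsmul_eq_mul] at h5
      apply Multiplicative.toAdd.injective
      rw [toAdd_one]
      rcases mul_eq_zero.1 h5 with h6 | h6
      · exact absurd (Int.natCast_eq_zero.1 h6) hp0
      · exact h6
    have hyW : Units.mk0 y hy0 ∈ Wv v := by
      intro w' h1
      have h3 : ∏ i, U i ^ ε i ∈ Wv v :=
        Subgroup.prod_mem _ fun i _ => Subgroup.pow_mem _ (hU i) _
      have h4 := h3 w' h1
      rw [hy'] at h4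
      exact hroot w' _ h4
    rw [Fintype.prod_sum_type] at hy'
    have hj3 : ∏ i, U (Sum.inl i) ^ ε (Sum.inl i) =
        j (∏ i, Units.fundSystem N i ^ ε (Sum.inl i)) := by
      simp only [j, map_pow, map_prod, U, Sum.elim_inl]
    rw [hj3] at hy'
    have hw3 := hw2 p (fun i => ε (Sum.inr i)) _ hyW _ (fun k => vz_unit (v k) _ _ rfl) hy'
    choose a ha using hw3
    obtain ⟨y₁, hy₁⟩ : ∃ y₁ : Nˣ, y₁ = Units.mk0 y hy0 * (∏ i, w i ^ a i)⁻¹ := ⟨_, rfl⟩
    have hy₁p : j (∏ i, Units.fundSystem N i ^ ε (Sum.inl i)) = y₁ ^ p := by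
      rw [hy₁, mul_pow, ← hy', inv_pow, ← Finset.prod_pow]
      have : ∏ i, (w i ^ a i) ^ p = ∏ i, U (Sum.inr i) ^ ε (Sum.inr i) := by
        refine Finset.prod_congr rfl fun i _ => ?_
        rw [ha i, ← pow_mul, mul_comm (a i) p]
        rfl
      rw [this]
      simp
    have hyv : ∀ w' : HeightOneSpectrum (𝓞 N), vz w' y₁ = 1 := by
      intro w'
      refine hroot w' _ ?_
      rw [← hy₁p]
      exact vz_unit w' _ _ rfl
    obtain ⟨y', hy4⟩ := exists_unit_of_vz hyv
    have hy5 : ∏ i, Units.fundSystem N i ^ ε (Sum.inl i) = y' ^ p := by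
      apply Units.coe_injective
      simp only
      have h6 : ((j (∏ i, Units.fundSystem N i ^ ε (Sum.inl i)) : Nˣ) : N) =
          ((∏ i, Units.fundSystem N i ^ ε (Sum.inl i) : (𝓞 N)ˣ) : N) := rfl
      rw [← h6, hy₁p, Units.val_pow_eq_pow_val, ← hy4, Units.coe_pow]
    have h4 := unit_part' _ y' hy5
    intro i
    have hall : ∀ k, p ∣ ε k := by
      rintro (k | k)
      · exact h4 k
      · exact ⟨a k, ha k⟩
    have := hall (E i)
    simpa only [ε, Equiv.symm_apply_apply] using this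

end Pool.Agent.L7h51.SGP
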