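import Pool.Agent.L7h48.SGP.Stm
import Pool.Agent.L7h22.SG.D2

/-!
# Project SGP, part U2 (helper51): the `p`-units of the fixed fields

A variant of `Pool.Agent.L7h22.SG.D2` for any number of embeddings.
-/

set_option autoImplicit false

namespace Pool.Agent.L7h51.SGP

open Pool.Agent.L7h48.SG
open Pool.Agent.Y715.Gi (QB KK GK i₀_mem gk_fix)
open Pool.Agent.Y715.Nr Pool.Agent.W237.RK
open Pool.Agent.Z384 (II DD DDs exists_conj)
open Pool.Agent.L7h22.SG.D2
open IsDedekindDomain HeightOneSpectrum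

variable {p : ℕ} [Fact p.Prime]

theorem norm_one_of_notMem {L : Type} [Field L] {j : L →+* PadicAlgCl p}
    {x : NumberField.RingOfIntegers L} (h : x ∉ PI j) : ‖j (x : L)‖ = 1 := by
  rw [mem_PI, not_lt] at h
  exact le_antisymm (jj_le j x) h

/-- elements which are units at the prime of `j` have norm one -/
theorem norm_one_of_val {L : Type} [Field L] [NumberField L]
    (v : HeightOneSpectrum (NumberField.RingOfIntegers L)) {j : L →+* PadicAlgCl p}
    (hj : PI j = v.asIdeal) {x : L} (hx : v.valuation L x = 1) : ‖j x‖ = 1 := by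
  obtain ⟨n, d, hnd⟩ := exists_primeCompl_mul_eq_of_integer v x hx.le
  have hd : (d : NumberField.RingOfIntegers L) ∉ PI j := by
    rw [hj]
    exact d.2
  have hn : n ∉ PI j := by
    rw [hj]
    rw [← valuation_eq_one_iff_notMem (K := L), ← hnd, map_mul, hx, one_mul,
      valuation_eq_one_iff_notMem]
    exact d.2
  have h1 := congrArg (fun t => ‖j t‖) hnd
  simp only [map_mul, norm_mul] at h1
  have h2 : ‖j (algebraMap (NumberField.RingOfIntegers L) L d)‖ = 1 := norm_one_of_notMem hd
  have h3 : ‖j (algebraMap (NumberField.RingOfIntegers L) L n)‖ = 1 := norm_one_of_notMem hn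
  rw [h2, h3, mul_one] at h1
  exact h1

/-- an absolute value above `p` is determined by its prime -/
theorem norm_eq_of_PI {L : Type} [Field L] [NumberField L] {j₁ j₂ : L →+* PadicAlgCl p}
    (h : PI j₁ = PI j₂) (x : L) : ‖j₁ x‖ = ‖j₂ x‖ := by
  have hp0 : p ≠ 0 := (Fact.out : p.Prime).ne_zero
  by_cases hx : x = 0
  · rw [hx, map_zero, map_zero]
  have hne : PI j₁ ≠ ⊥ := by
    intro h0
    have h1 := PI_p j₁
    rw [h0, Ideal.mem_bot] at h1
    exact Nat.cast_ne_zero.2 hp0 h1
  let v : HeightOneSpectrum (NumberField.RingOfIntegers L) := ⟨PI j₁, PI_prime j₁, hne⟩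
  have hx0 : v.valuation L x ≠ 0 := by
    rw [Valuation.ne_zero_iff]
    exact hx
  have hpl : v.valuation L (p : L) < 1 := by
    have h1 := (HeightOneSpectrum.valuation_lt_one_iff_mem (K := L) v
      (p : NumberField.RingOfIntegers L)).2 (PI_p j₁)
    change v.valuation L (algebraMap (NumberField.RingOfIntegers L) L p) < 1 at h1
    rwa [map_natCast] at h1
  have hp1 : v.valuation L (p : L) ≠ 0 := by
    rw [Valuation.ne_zero_iff]
    exact Nat.cast_ne_zero.2 hp0
  obtain ⟨a, ha⟩ : ∃ a : ℤ, v.valuation L x = WithZero.exp a := ⟨_, (WithZero.exp_log hx0).symm⟩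
  obtain ⟨b, hb⟩ : ∃ b : ℤ, v.valuation L (p : L) = WithZero.exp b :=
    ⟨_, (WithZero.exp_log hp1).symm⟩
  have hb0 : b < 0 := by
    rw [hb, ← WithZero.exp_zero, WithZero.exp_lt_exp] at hpl
    exact hpl
  obtain ⟨e, he⟩ : ∃ e : ℕ, (e : ℤ) = -b := ⟨(-b).toNat, Int.toNat_of_nonneg (by omega)⟩
  have he0 : e ≠ 0 := by
    rintro rfl
    simp at he
    omega
  have hv : v.valuation L (x ^ e * (p : L) ^ a) = 1 := by
    rw [map_mul, map_pow, map_zpow₀, ha, hb, ← WithZero.exp_nsmul, ← WithZero.exp_zsmul,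
      ← WithZero.exp_add, ← WithZero.exp_zero]
    congr 1
    rw [nsmul_eq_mul, smul_eq_mul, he]
    ring
  have h1 := norm_one_of_val v (j := j₁) rfl hv
  have h2 := norm_one_of_val v (j := j₂) h.symm hv
  rw [map_mul, norm_mul, map_pow, norm_pow, map_zpow₀, norm_zpow, map_natCast] at h1 h2
  have hpn : (0 : ℝ) < ‖(p : PadicAlgCl p)‖ := by
    rw [norm_pos_iff]
    exact Nat.cast_ne_zero.2 hp0
  have h3 : ‖j₁ x‖ ^ e = ‖j₂ x‖ ^ e :=
    mul_right_cancel₀ (zpow_pos hpn a).ne' (h1.trans h2.symm)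
  exact (pow_left_inj₀ (norm_nonneg _) (norm_nonneg _) he0).1 h3

theorem s_U2 (hU1 : Pool.Agent.L7h48.SGP.S_U1) : Pool.Agent.L7h48.SGP.S_U2 := by
  classical
  intro p _ s d hd' hs U hU k ι hι
  have hpr := (Fact.out : p.Prime)
  have hd : d ≠ 0 := hd'.ne'
  let L : IntermediateField (KK s) QB := IntermediateField.fixedField U
  have hfix : L.fixingSubgroup = U :=
    InfiniteGalois.fixingSubgroup_fixedField ⟨U, U.isClosed_of_isOpen hU⟩
  have hfd : FiniteDimensional (KK s) L := (InfiniteGalois.isOpen_iff_finite L).1 (by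
    rw [hfix]; exact hU)
  have hfr : Module.finrank (KK s) L = U.index := by
    rw [IntermediateField.finrank_eq_fixingSubgroup_index, hfix]
  have hKfd : FiniteDimensional ℚ (KK s) := Module.finite_of_finrank_pos (by
    rw [finrank_KK hs hd]; norm_num)
  have hLfd : FiniteDimensional ℚ L := FiniteDimensional.trans ℚ (KK s) L
  have hLr : Module.finrank ℚ L = 2 * U.index := by
    rw [← hfr, ← finrank_KK hs hd, Module.finrank_mul_finrank]
  have hNF : NumberField L := { to_charZero := inferInstance, to_finiteDimensional := hLfd }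
  let sL : L := algebraMap (KK s) L ⟨s, i₀_mem⟩
  have hsL : (sL : QB) = s := rfl
  have hsL2 : sL ^ 2 = -(d : L) := by
    apply Subtype.ext
    push_cast
    rw [hsL, hs]
  have hcpx : NumberField.InfinitePlace.nrRealPlaces L = 0 := by
    have hE : IsEmpty {w : NumberField.InfinitePlace L // w.IsReal} := by
      refine ⟨fun w => ?_⟩
      have h1 : (NumberField.InfinitePlace.embedding_of_isReal w.2 sL) ^ 2 = -(d : ℝ) := by
        rw [← map_pow, hsL2, map_neg, map_natCast]
      have h3 : (0 : ℝ) < d := by exact_mod_cast Nat.pos_of_ne_zero hd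
      nlinarith [sq_nonneg (NumberField.InfinitePlace.embedding_of_isReal w.2 sL)]
    unfold NumberField.InfinitePlace.nrRealPlaces
    rw [Fintype.card_eq_zero_iff]
    exact hE
  let j : Fin k → (L →+* PadicAlgCl p) := fun i =>
    (ι i : QB →+* PadicAlgCl p).comp (L.val : L →+* QB)
  have hinj : Function.Injective fun i => PI (j i) := by
    intro i i' h
    by_contra hne
    obtain ⟨x, hx, hxn⟩ := hι i i' hne
    let x' : L := ⟨x, fun σ => hx σ σ.2⟩
    exact hxn (norm_eq_of_PI (j₁ := j i) (j₂ := j i') h x')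
  have hT : (Finset.univ.image fun i => PI (j i)).card = k := by
    rw [Finset.card_image_of_injective _ hinj, Finset.card_univ, Fintype.card_fin]
  have hmain := hU1 p L U.index hLr hcpx (Finset.univ.image fun i => PI (j i)) (by
    intro P hP
    obtain ⟨i, -, rfl⟩ := Finset.mem_image.1 hP
    exact ⟨PI_prime _, PI_p _⟩)
  rw [hT] at hmain
  obtain ⟨u, hu0, hu2, huS⟩ := hmain
  refine ⟨fun i => (u i : QB), ?_, ?_, ?_⟩
  · intro i σ hσ
    exact (u i).2 ⟨σ, hσ⟩
  · intro i
    obtain ⟨m, h1, h2⟩ := hu2 i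
    refine ⟨fun h => hu0 i (Subtype.ext h), m, ?_, ?_⟩
    · exact h1.map (L.val.restrictScalars ℤ)
    · exact h2.map (L.val.restrictScalars ℤ)
  · rintro e ⟨y, hy, hye⟩
    apply huS e
    refine ⟨⟨y, fun σ => hy σ σ.2⟩, ?_⟩
    apply Subtype.ext
    push_cast
    exact hye

end Pool.Agent.L7h51.SGP
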